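import Mathlib

set_option autoImplicit false

/-! Choosing many pairwise nonisomorphic fields. -/

namespace Pool.Agent.Q22.LE

open Finset

/-- if at most `W` of the fields are isomorphic to a given one, then many of them are pairwise not
isomorphic -/
theorem classes {ι : Type} (s : Finset ι) (K : ι → Type) [∀ i, Field (K i)] (W : ℝ)
    (hW : ∀ i ∈ s, ∀ u : Finset ι, u ⊆ s → (∀ j ∈ u, Nonempty (K j ≃+* K i)) → (u.card : ℝ) ≤ W) :
    ∃ (q : ℕ) (f : Fin q → ι), (s.card : ℝ) ≤ q * W ∧ (∀ i, f i ∈ s) ∧
      ∀ i j, i ≠ j → IsEmpty (K (f i) ≃+* K (f j)) := by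
  classical
  let st : Setoid s :=
    { r := fun c d => Nonempty (K c ≃+* K d)
      iseqv := ⟨fun c => ⟨RingEquiv.refl _⟩, fun ⟨e⟩ => ⟨e.symm⟩, fun ⟨e⟩ ⟨f⟩ => ⟨e.trans f⟩⟩ }
  let e : Quotient st ≃ Fin (Fintype.card (Quotient st)) := Fintype.equivFin _
  refine ⟨Fintype.card (Quotient st), fun i => ((e.symm i).out : s), ?_, ?_, ?_⟩
  · have h1 : ∀ x : Quotient st, (((univ.filter fun c : s => (Quotient.mk st c) = x).card : ℕ) : ℝ) ≤ W := by
      intro x
      have h2 := hW (x.out : s) (x.out : s).2 ((univ.filter fun c : s => (Quotient.mk st c) = x).image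
        (fun c : s => (c : ι))) (by
          intro c hc
          rw [mem_image] at hc
          obtain ⟨d, -, rfl⟩ := hc
          exact d.2) (by
          intro c hc
          rw [mem_image] at hc
          obtain ⟨d, hd, rfl⟩ := hc
          rw [mem_filter] at hd
          have h3 : Quotient.mk st d = Quotient.mk st x.out := by rw [hd.2, Quotient.out_eq]
          exact Quotient.exact h3)
      rw [Finset.card_image_of_injective _ Subtype.val_injective] at h2
      exact h2
    have h2 : ((univ : Finset s).card) = ∑ x : Quotient st, (univ.filter fun c : s =>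
        (Quotient.mk st c) = x).card :=
      Finset.card_eq_sum_card_fiberwise (fun _ _ => mem_univ _)
    rw [card_univ, Fintype.card_coe] at h2
    have h3 : (s.card : ℝ) = ∑ x : Quotient st, (((univ.filter fun c : s =>
        (Quotient.mk st c) = x).card : ℕ) : ℝ) := by exact_mod_cast h2
    rw [h3]
    refine (sum_le_sum fun x _ => h1 x).trans (le_of_eq ?_)
    rw [sum_const, card_univ, nsmul_eq_mul]
  · intro i
    exact ((e.symm i).out : s).2
  · intro i j hij
    refine ⟨fun g => hij ?_⟩
    have h1 : (e.symm i).out ≈ (e.symm j).out := ⟨g⟩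
    rw [Quotient.out_equiv_out] at h1
    exact e.symm.injective h1

end Pool.Agent.Q22.LE
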