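import Mathlib

set_option autoImplicit false

/-! Number of units of bounded size, uniformly in the number fields of given degree. -/

namespace Pool.Agent.Q22.LE

open NumberField Module Finset Polynomial

/-- algebraic integers with bounded conjugates -/
theorem card_small (n : ℕ) (D : ℝ) : ∃ C : ℕ, ∀ (K : Type) [Field K] [NumberField K],
    finrank ℚ K = n → ∀ s : Finset (𝓞 K), (∀ x ∈ s, ∀ φ : K →+* ℂ, ‖φ (x : K)‖ ≤ D) →
      s.card ≤ C := by
  classical
  obtain ⟨R, hR⟩ : ∃ R : ℕ, max D 1 ^ n * (n.choose (n / 2) : ℝ) ≤ R := exists_nat_ge _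
  refine ⟨n * (2 * R + 1) ^ (n + 1), ?_⟩
  intro K _ _ hK s hs
  set P : Finset (Fin (n + 1) → ℤ) := Fintype.piFinset (fun _ => Finset.Icc (-(R : ℤ)) R) with hP
  have hPc : P.card = (2 * R + 1) ^ (n + 1) := by
    rw [hP, Fintype.card_piFinset_const, Int.card_Icc]
    congr 1
    omega
  have hmin : ∀ x : 𝓞 K, minpoly ℚ (x : K) = (minpoly ℤ (x : K)).map (algebraMap ℤ ℚ) := fun x =>
    minpoly.isIntegrallyClosed_eq_field_fractions' ℚ (RingOfIntegers.isIntegral_coe x)
  have hdeg : ∀ x : 𝓞 K, (minpoly ℤ (x : K)).natDegree ≤ n := by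
    intro x
    have h1 : (minpoly ℚ (x : K)).natDegree = (minpoly ℤ (x : K)).natDegree := by
      rw [hmin x, (minpoly.monic (RingOfIntegers.isIntegral_coe x)).natDegree_map]
    rw [← h1, ← hK]
    exact minpoly.natDegree_le (x : K)
  rw [← hPc]
  refine card_le_mul_card_image_of_maps_to (f := fun x : 𝓞 K => fun i : Fin (n + 1) =>
    (minpoly ℤ (x : K)).coeff i) (t := P) ?_ n ?_
  · intro x hx
    rw [hP, Fintype.mem_piFinset]
    intro i
    have h1 := Embeddings.coeff_bdd_of_norm_le (A := ℂ) (x := (x : K)) (B := D) (fun φ => hs x hx φ) i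
    rw [hmin x, coeff_map, hK] at h1
    have h2 : ‖(algebraMap ℤ ℚ) ((minpoly ℤ (x : K)).coeff i)‖ = |(((minpoly ℤ (x : K)).coeff i : ℤ) : ℝ)| := by
      rw [eq_intCast]
      simp [Int.norm_eq_abs]
    rw [h2] at h1
    have h3 := h1.trans hR
    rw [abs_le] at h3
    rw [mem_Icc]
    constructor
    · exact_mod_cast h3.1
    · exact_mod_cast h3.2
  · intro b _
    rcases Finset.eq_empty_or_nonempty (s.filter fun x : 𝓞 K => (fun i : Fin (n + 1) =>
      (minpoly ℤ (x : K)).coeff i) = b) with h | ⟨x0, hx0⟩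
    · rw [h]; simp
    · rw [mem_filter] at hx0
      set f := minpoly ℤ (x0 : K) with hf
      have hf0 : f ≠ 0 := (minpoly.monic (RingOfIntegers.isIntegral_coe x0)).ne_zero
      have hinj : Function.Injective (algebraMap (𝓞 K) K) := RingOfIntegers.coe_injective
      have hmap0 : f.map (algebraMap ℤ K) ≠ 0 := by
        rw [Polynomial.map_ne_zero_iff (by exact (algebraMap ℤ K).injective_int)]
        exact hf0
      have h1 : (s.filter fun x : 𝓞 K => (fun i : Fin (n + 1) =>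
          (minpoly ℤ (x : K)).coeff i) = b).card ≤ (f.map (algebraMap ℤ K)).roots.toFinset.card := by
        refine Finset.card_le_card_of_injOn (fun x : 𝓞 K => (x : K)) ?_ (fun x _ y _ h => hinj h)
        intro x hx
        rw [mem_coe, mem_filter] at hx
        have h2 : minpoly ℤ (x : K) = f := by
          ext i
          by_cases hi : i < n + 1
          · have h3 := congrFun (hx.2.trans hx0.2.symm) ⟨i, hi⟩
            exact h3
          · rw [coeff_eq_zero_of_natDegree_lt (by have := hdeg x; omega),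
              coeff_eq_zero_of_natDegree_lt (by have := hdeg x0; rw [hf]; omega)]
        rw [mem_coe, Multiset.mem_toFinset, mem_roots hmap0, IsRoot.def, eval_map_algebraMap, ← h2]
        exact minpoly.aeval ℤ (x : K)
      refine h1.trans ((Multiset.toFinset_card_le _).trans ((card_roots' _).trans ?_))
      exact natDegree_map_le.trans (by rw [hf]; exact hdeg x0)

/-- the conjugates of a unit have product of absolute value one -/
lemma prod_conj {K : Type} [Field K] [NumberField K] (u : (𝓞 K)ˣ) :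
    ∏ φ : K →+* ℂ, ‖φ ((u : 𝓞 K) : K)‖ = 1 := by
  have h1 := Algebra.norm_eq_prod_embeddings ℚ ℂ ((u : 𝓞 K) : K)
  have h2 := NumberField.Units.norm K u
  have h3 : ∏ φ : K →+* ℂ, ‖φ ((u : 𝓞 K) : K)‖ = ∏ σ : K →ₐ[ℚ] ℂ, ‖σ ((u : 𝓞 K) : K)‖ := by
    refine Fintype.prod_equiv (RingHom.equivRatAlgHom K ℂ) _ _ fun φ => ?_
    rfl
  rw [h3, ← norm_prod, ← h1, eq_ratCast]
  have h4 : ((Algebra.norm ℚ ((u : 𝓞 K) : K) : ℚ) : ℂ) = (((Algebra.norm ℚ ((u : 𝓞 K) : K) : ℚ) : ℝ) : ℂ) := by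
    push_cast; rfl
  rw [h4, Complex.norm_real, Real.norm_eq_abs]
  have h5 : |Algebra.norm ℚ ((u : 𝓞 K) : K)| = 1 := h2
  exact_mod_cast h5

/-- number of units with conjugates of absolute value at most `B` -/
theorem card_units (n : ℕ) (hn : 1 ≤ n) : ∃ C : ℝ, 0 < C ∧ ∀ (K : Type) [Field K] [NumberField K],
    finrank ℚ K = n → ∀ B : ℝ, 2 ≤ B → ∀ s : Finset (𝓞 K)ˣ,
      (∀ u ∈ s, ∀ φ : K →+* ℂ, ‖φ ((u : 𝓞 K) : K)‖ ≤ B) →
      (s.card : ℝ) ≤ C * Real.log B ^ (n - 1) := by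
  classical
  obtain ⟨C0, hC0⟩ := card_small n (2 ^ n)
  have hl2 : 0 < Real.log 2 := Real.log_pos (by norm_num)
  refine ⟨(C0 + 1) * ((2 * n + 3) / Real.log 2) ^ (n - 1), by positivity, ?_⟩
  intro K _ _ hK B hB s hs
  have hcard : Fintype.card (K →+* ℂ) = n := by
    rw [NumberField.Embeddings.card, hK]
  obtain ⟨φ0⟩ : Nonempty (K →+* ℂ) := by
    rw [← Fintype.card_pos_iff, hcard]; omega
  have hB0 : 0 < B := by linarith
  obtain ⟨L, hL⟩ : ∃ L : ℝ, L = Real.log B / Real.log 2 := ⟨_, rfl⟩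
  have hL1 : 1 ≤ L := by
    rw [hL, le_div_iff₀ hl2, one_mul]
    exact Real.log_le_log (by norm_num) hB
  -- the logarithms
  set l : (𝓞 K)ˣ → (K →+* ℂ) → ℝ := fun u φ => Real.log ‖φ ((u : 𝓞 K) : K)‖ / Real.log 2 with hl
  have hpos : ∀ (u : (𝓞 K)ˣ) (φ : K →+* ℂ), 0 < ‖φ ((u : 𝓞 K) : K)‖ := by
    intro u φ
    rw [norm_pos_iff, ne_eq, map_eq_zero]
    intro h
    exact u.ne_zero (RingOfIntegers.coe_injective (by simpa using h))
  have hsum : ∀ u : (𝓞 K)ˣ, ∑ φ, l u φ = 0 := by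
    intro u
    rw [hl]
    simp only
    rw [← Finset.sum_div, ← Real.log_prod (fun φ _ => (hpos u φ).ne'), prod_conj u, Real.log_one,
      zero_div]
  have hup : ∀ u ∈ s, ∀ φ, l u φ ≤ L := by
    intro u hu φ
    rw [hl, hL]
    simp only
    exact div_le_div_of_nonneg_right (Real.log_le_log (hpos u φ) (hs u hu φ)) hl2.le
  have hlow : ∀ u ∈ s, ∀ φ, -((n : ℝ) * L) ≤ l u φ := by
    intro u hu φ
    have h1 := hsum u
    rw [← Finset.add_sum_erase _ _ (mem_univ φ)] at h1
    have h2 : ∑ ψ ∈ univ.erase φ, l u ψ ≤ ∑ ψ ∈ univ.erase φ, L := sum_le_sum fun ψ _ => hup u hu ψ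
    rw [sum_const, card_erase_of_mem (mem_univ φ), card_univ, hcard, nsmul_eq_mul] at h2
    have h3 : ((n - 1 : ℕ) : ℝ) ≤ n := by exact_mod_cast Nat.sub_le n 1
    have h4 : ((n - 1 : ℕ) : ℝ) * L ≤ n * L := mul_le_mul_of_nonneg_right h3 (by linarith)
    linarith
  obtain ⟨N, hN⟩ : ∃ N : ℕ, N = ⌈(n : ℝ) * L⌉₊ := ⟨_, rfl⟩
  have hN1 : (n : ℝ) * L ≤ N := by rw [hN]; exact Nat.le_ceil _
  have hN2 : (N : ℝ) ≤ n * L + 1 := by
    rw [hN]
    exact (Nat.ceil_lt_add_one (by positivity)).le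
  have hnR : (1 : ℝ) ≤ n := by exact_mod_cast hn
  set P : Finset ({φ : K →+* ℂ // φ ≠ φ0} → ℤ) :=
    Fintype.piFinset (fun _ => Finset.Icc (-(N : ℤ)) N) with hP
  have hPc : P.card = (2 * N + 1) ^ (n - 1) := by
    rw [hP, Fintype.card_piFinset, prod_const, Int.card_Icc, card_univ, Fintype.card_subtype_compl,
      Fintype.card_subtype_eq, hcard]
    congr 1
    omega
  have key : s.card ≤ C0 * P.card := by
    refine card_le_mul_card_image_of_maps_to (f := fun u : (𝓞 K)ˣ =>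
      fun φ : {φ : K →+* ℂ // φ ≠ φ0} => ⌊l u φ⌋) (t := P) ?_ C0 ?_
    · intro u hu
      rw [hP, Fintype.mem_piFinset]
      intro φ
      rw [mem_Icc]
      constructor
      · rw [Int.le_floor]
        push_cast
        have := hlow u hu φ
        linarith
      · have h1 : (⌊l u φ⌋ : ℝ) ≤ l u φ := Int.floor_le _
        have h2 := hup u hu φ
        have h3 : L ≤ n * L := le_mul_of_one_le_left (by linarith) hnR
        have h4 : (⌊l u φ⌋ : ℝ) ≤ N := by linarith
        exact_mod_cast h4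
    · intro b _
      rcases Finset.eq_empty_or_nonempty (s.filter fun u : (𝓞 K)ˣ =>
        (fun φ : {φ : K →+* ℂ // φ ≠ φ0} => ⌊l u φ⌋) = b) with h | ⟨u0, hu0⟩
      · rw [h]; simp
      · rw [mem_filter] at hu0
        have hinj : Function.Injective (fun u : (𝓞 K)ˣ => ((u * u0⁻¹ : (𝓞 K)ˣ) : 𝓞 K)) := by
          intro u v h
          have h1 : u * u0⁻¹ = v * u0⁻¹ := Units.ext h
          exact mul_right_cancel h1
        rw [← Finset.card_image_of_injective _ hinj]
        apply hC0 K hK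
        intro x hx φ
        rw [mem_image] at hx
        obtain ⟨u, hu, rfl⟩ := hx
        rw [mem_filter] at hu
        -- the difference of the logarithms
        have hdiff : ∀ ψ : K →+* ℂ, ψ ≠ φ0 → |l u ψ - l u0 ψ| ≤ 1 := by
          intro ψ hψ
          have h1 : ⌊l u ψ⌋ = ⌊l u0 ψ⌋ := congrFun (hu.2.trans hu0.2.symm) ⟨ψ, hψ⟩
          exact (Int.abs_sub_lt_one_of_floor_eq_floor h1).le
        have hdl : ∀ ψ : K →+* ℂ, l u ψ - l u0 ψ ≤ n := by
          intro ψ
          by_cases hψ : ψ = φ0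
          · rw [hψ]
            have h1 := hsum u
            have h2 := hsum u0
            rw [← Finset.add_sum_erase _ _ (mem_univ φ0)] at h1 h2
            have h3 : l u φ0 - l u0 φ0 = ∑ ψ ∈ univ.erase φ0, (l u0 ψ - l u ψ) := by
              rw [sum_sub_distrib]
              linarith
            rw [h3]
            have h4 : ∑ ψ ∈ univ.erase φ0, (l u0 ψ - l u ψ) ≤ ∑ ψ ∈ univ.erase φ0, (1 : ℝ) := by
              refine sum_le_sum fun ψ hψ => ?_
              have h5 := (abs_le.1 (hdiff ψ (Finset.ne_of_mem_erase hψ))).1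
              linarith
            refine h4.trans ?_
            rw [sum_const, card_erase_of_mem (mem_univ φ0), card_univ, hcard, nsmul_eq_mul, mul_one]
            exact_mod_cast Nat.sub_le n 1
          · exact ((abs_le.1 (hdiff ψ hψ)).2).trans hnR
        have hq : ‖φ (((u * u0⁻¹ : (𝓞 K)ˣ) : 𝓞 K) : K)‖ = ‖φ ((u : 𝓞 K) : K)‖ / ‖φ ((u0 : 𝓞 K) : K)‖ := by
          rw [eq_div_iff (hpos u0 φ).ne', ← norm_mul, ← map_mul]
          congr 2
          have h1 : ((u * u0⁻¹ : (𝓞 K)ˣ) : 𝓞 K) * (u0 : 𝓞 K) = u := by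
            rw [← Units.val_mul, inv_mul_cancel_right]
          have h2 := congrArg (fun z : 𝓞 K => (z : K)) h1
          simpa using h2
        change ‖φ (((u * u0⁻¹ : (𝓞 K)ˣ) : 𝓞 K) : K)‖ ≤ 2 ^ n
        rw [hq, div_le_iff₀ (hpos u0 φ), ← Real.log_le_log_iff (hpos u φ)
          (mul_pos (by positivity) (hpos u0 φ)), Real.log_mul (by positivity) (hpos u0 φ).ne',
          Real.log_pow]
        have h6 := hdl φ
        rw [hl] at h6
        simp only at h6
        rw [← sub_div, div_le_iff₀ hl2] at h6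
        linarith
  have h7 : (s.card : ℝ) ≤ C0 * (2 * N + 1) ^ (n - 1) := by
    rw [hPc] at key
    exact_mod_cast key
  refine h7.trans ?_
  have h8 : (2 * (N : ℝ) + 1) ≤ (2 * n + 3) / Real.log 2 * Real.log B := by
    have h9 : (2 * (n : ℝ) + 3) / Real.log 2 * Real.log B = (2 * n + 3) * L := by
      rw [hL]; ring
    rw [h9]
    nlinarith
  have h10 : (2 * (N : ℝ) + 1) ^ (n - 1) ≤ ((2 * n + 3) / Real.log 2 * Real.log B) ^ (n - 1) :=
    pow_le_pow_left₀ (by positivity) h8 _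
  rw [mul_pow] at h10
  have h11 : (0 : ℝ) ≤ ((2 * n + 3) / Real.log 2) ^ (n - 1) * Real.log B ^ (n - 1) :=
    le_trans (by positivity) h10
  calc (C0 : ℝ) * (2 * N + 1) ^ (n - 1) ≤ C0 * (((2 * n + 3) / Real.log 2) ^ (n - 1) * Real.log B ^ (n - 1)) :=
        mul_le_mul_of_nonneg_left h10 (Nat.cast_nonneg _)
    _ ≤ (C0 + 1) * (((2 * n + 3) / Real.log 2) ^ (n - 1) * Real.log B ^ (n - 1)) := by
        apply mul_le_mul_of_nonneg_right _ h11
        linarith
    _ = _ := by ring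

end Pool.Agent.Q22.LE
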