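import Pool.Agent.Q22.LE.Many

set_option autoImplicit false

/-! The final estimates. -/

namespace Pool.Agent.Q22.LE

open NumberField Module Finset Polynomial Filter Topology
open Pool.Agent.H637R2.Leo (Leopoldt)

/-- at least `N` pairwise nonisomorphic fields -/
def AtLeast (n : ℕ) (X : ℝ) (S : Set ℕ) (N : ℝ) : Prop :=
  ∃ (q : ℕ) (K : Fin q → Type) (_ : ∀ i, Field (K i)) (_ : ∀ i, NumberField (K i)),
    N ≤ q ∧ (∀ i j, i ≠ j → IsEmpty (K i ≃+* K j)) ∧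
    ∀ i, finrank ℚ (K i) = n ∧ IsTotallyReal (K i) ∧ ¬ IsGalois ℚ (K i) ∧
      |(discr (K i) : ℝ)| ≤ X ∧ ∀ p ∈ S, ∀ [Fact p.Prime], Leopoldt (K i) p

lemma AtLeast.mono {n : ℕ} {X : ℝ} {S S' : Set ℕ} {N N' : ℝ} (h : AtLeast n X S N) (hN : N' ≤ N)
    (hS : S' ⊆ S) : AtLeast n X S' N' := by
  obtain ⟨q, K, hF, hK, h1, h2, h3⟩ := h
  exact ⟨q, K, hF, hK, hN.trans h1, h2, fun i => ⟨(h3 i).1, (h3 i).2.1, (h3 i).2.2.1, (h3 i).2.2.2.1,
    fun p hp => (h3 i).2.2.2.2 p (hS hp)⟩⟩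

lemma fact_le (n : ℕ) : n.factorial ≤ n ^ n := by
  rw [← Finset.prod_range_add_one_eq_factorial]
  calc ∏ x ∈ range n, (x + 1) ≤ ∏ _x ∈ range n, n := Finset.prod_le_prod' fun x hx => mem_range.1 hx
    _ = n ^ n := by simp

theorem part1 (m : ℕ) (hm : 2 ≤ m) : ∃ c C : ℝ, 0 < c ∧ 2 ≤ C ∧ ∀ S : Finset ℕ, (∀ p ∈ S, p.Prime) →
    ∀ X : ℝ, (C * ∏ p ∈ S, (p : ℝ)) ^ ((m + 1) * m) ≤ X →
      AtLeast (m + 1) X S (c * X ^ ((1 : ℝ) / (m + 1 : ℕ)) /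
        ((∏ p ∈ S, (p : ℝ)) ^ m * Real.log X ^ (m ^ 2))) := by
  classical
  obtain ⟨C', hC', hcount⟩ := count m hm
  obtain ⟨A, hA⟩ : ∃ A : ℕ, A = (m + 1).factorial ^ (m + 1) := ⟨_, rfl⟩
  have hA1 : 1 ≤ A := by rw [hA]; exact Nat.one_le_pow _ _ (Nat.factorial_pos _)
  have hA1' : (1 : ℝ) ≤ A := by exact_mod_cast hA1
  have hn1 : (3 : ℝ) ≤ (m + 1 : ℝ) := by
    have : (2 : ℝ) ≤ m := by exact_mod_cast hm
    linarith
  refine ⟨1 / ((4 * (m + 1) ^ 2 * A) ^ m * C'), 2 * (m + 1) ^ 2 * A, by positivity, by nlinarith, ?_⟩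
  intro S hS X hX
  obtain ⟨Q, hQ⟩ : ∃ Q : ℕ, Q = ∏ p ∈ S, p := ⟨_, rfl⟩
  have hQ1 : 1 ≤ Q := by
    rw [hQ]; exact Nat.one_le_iff_ne_zero.2 (prod_ne_zero_iff.2 fun p hp => (hS p hp).ne_zero)
  have hQr : (∏ p ∈ S, (p : ℝ)) = Q := by rw [hQ]; push_cast; rfl
  rw [hQr] at hX ⊢
  have hQ1' : (1 : ℝ) ≤ Q := by exact_mod_cast hQ1
  obtain ⟨M, hM⟩ : ∃ M : ℕ, M = A * Q := ⟨_, rfl⟩
  have hM1 : 1 ≤ M := by rw [hM]; exact Nat.mul_pos hA1 hQ1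
  have hMr : (M : ℝ) = A * Q := by rw [hM]; push_cast; rfl
  -- X and its roots
  have hCQ : (2 : ℝ) ≤ 2 * (m + 1) ^ 2 * A * Q := by nlinarith [mul_le_mul hA1' hQ1' zero_le_one (by linarith : (0:ℝ) ≤ A)]
  have hX2 : (2 : ℝ) ≤ X := by
    refine le_trans ?_ hX
    calc (2 : ℝ) ≤ (2 * (m + 1) ^ 2 * A * Q) := hCQ
      _ = (2 * (m + 1) ^ 2 * A * Q) ^ 1 := (pow_one _).symm
      _ ≤ _ := pow_le_pow_right₀ (by linarith) (Nat.mul_pos (by omega) (by omega))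
  have hX0 : 0 ≤ X := by linarith
  obtain ⟨Z, hZ⟩ : ∃ Z : ℝ, Z = X ^ ((1 : ℝ) / (m + 1 : ℕ)) := ⟨_, rfl⟩
  have hZ0 : 0 ≤ Z := by rw [hZ]; exact Real.rpow_nonneg hX0 _
  have hZX : Z ^ (m + 1) = X := by
    rw [hZ, one_div]
    exact Real.rpow_inv_natCast_pow hX0 (by omega)
  obtain ⟨Y, hY⟩ : ∃ Y : ℝ, Y = Z ^ ((m : ℝ)⁻¹) := ⟨_, rfl⟩
  have hY0 : 0 ≤ Y := by rw [hY]; exact Real.rpow_nonneg hZ0 _
  have hYZ : Y ^ m = Z := by
    rw [hY]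
    exact Real.rpow_inv_natCast_pow hZ0 (by omega)
  have hYX : Y ^ ((m + 1) * m) = X := by
    rw [mul_comm, pow_mul, hYZ, hZX]
  have hne : (m + 1) * m ≠ 0 := by positivity
  have hYC : 2 * (m + 1) ^ 2 * A * Q ≤ Y := by
    rw [← hYX] at hX
    exact (pow_le_pow_iff_left₀ (by positivity) hY0 hne).1 hX
  have hY2 : 1 ≤ Y := by linarith
  have hYX' : Y ≤ X := by
    rw [← hYX]
    exact le_self_pow₀ hY2 hne
  -- the number R
  have hD : (0 : ℝ) < 2 * (m + 1) ^ 2 * M := by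
    rw [hMr]; positivity
  obtain ⟨R, hR⟩ : ∃ R : ℕ, R = ⌊Y / (2 * (m + 1) ^ 2 * M)⌋₊ := ⟨_, rfl⟩
  have hq1 : (1 : ℝ) ≤ Y / (2 * (m + 1) ^ 2 * M) := by
    rw [le_div_iff₀ hD, hMr]
    linarith
  have hR1 : 1 ≤ R := by
    rw [hR]
    exact Nat.le_floor (by exact_mod_cast hq1)
  have hR1' : (1 : ℝ) ≤ R := by exact_mod_cast hR1
  have hR2 : (R : ℝ) * (2 * (m + 1) ^ 2 * M) ≤ Y := by
    rw [← le_div_iff₀ hD, hR]
    exact Nat.floor_le (by positivity)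
  have hR3 : Y ≤ R * (4 * (m + 1) ^ 2 * M) := by
    have h1 : Y / (2 * (m + 1) ^ 2 * M) < R + 1 := by
      rw [hR]; exact Nat.lt_floor_add_one _
    rw [div_lt_iff₀ hD] at h1
    nlinarith
  -- T
  have hT1 : (1 : ℝ) ≤ (M * (m + 1) * R : ℝ) := by
    have h1 : 1 ≤ M * (m + 1) * R := Nat.mul_pos (Nat.mul_pos hM1 (by omega)) hR1
    exact_mod_cast h1
  have hT2 : (m + 1 : ℝ) * ((M * (m + 1) * R : ℝ) + 1) ≤ Y := by
    refine le_trans ?_ hR2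
    have h1 : (m + 1 : ℝ) * ((M * (m + 1) * R : ℝ) + 1) ≤ (m + 1 : ℝ) * (2 * (M * (m + 1) * R : ℝ)) :=
      mul_le_mul_of_nonneg_left (by linarith) (by positivity)
    refine h1.trans (le_of_eq ?_)
    ring
  have hbound : ((m + 1).factorial : ℝ) ^ 2 * ((M * (m + 1) * R : ℝ) + 1) ^ ((m + 1) * m) ≤ X := by
    have h1 : ((m + 1).factorial : ℝ) ^ 2 ≤ (m + 1 : ℝ) ^ ((m + 1) * m) := by
      have h2 : (m + 1).factorial ^ 2 ≤ ((m + 1) ^ (m + 1)) ^ 2 := Nat.pow_le_pow_left (fact_le _) 2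
      have h3 : ((m + 1) ^ (m + 1)) ^ 2 ≤ (m + 1) ^ ((m + 1) * m) := by
        rw [← pow_mul]
        exact Nat.pow_le_pow_right (by omega) (Nat.mul_le_mul_left _ hm)
      exact_mod_cast h2.trans h3
    calc _ ≤ (m + 1 : ℝ) ^ ((m + 1) * m) * ((M * (m + 1) * R : ℝ) + 1) ^ ((m + 1) * m) :=
          mul_le_mul_of_nonneg_right h1 (by positivity)
      _ = ((m + 1 : ℝ) * ((M * (m + 1) * R : ℝ) + 1)) ^ ((m + 1) * m) := by rw [mul_pow]
      _ ≤ Y ^ ((m + 1) * m) := pow_le_pow_left₀ (by positivity) hT2 _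
      _ = X := hYX
  have hfac : ∀ p : ℕ, p.Prime → p ≤ m + 1 → p ^ (m + 1) ∣ M := by
    intro p hp hpm
    rw [hM, hA]
    exact Dvd.dvd.mul_right (pow_dvd_pow_of_dvd ((Nat.Prime.dvd_factorial hp).2 hpm) _) _
  have hmf : m.minFac.Prime := Nat.minFac_prime (by omega)
  obtain ⟨q, K, hF, hN, h1, h2, h3⟩ := hcount M R hM1 hR1
    ((dvd_pow_self _ (by omega)).trans (hfac _ hmf ((Nat.minFac_le (by omega)).trans (by omega))))
    ⟨Nat.lt_two_pow_self, hfac 2 Nat.prime_two (by omega)⟩ X hbound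
  refine ⟨q, K, hF, hN, ?_, h2, fun i => ⟨(h3 i).1, (h3 i).2.1, (h3 i).2.2.1, (h3 i).2.2.2.1, ?_⟩⟩
  · -- the estimate
    have hlogX : 0 < Real.log X := Real.log_pos (by linarith)
    have h4 : Real.log (2 * (M * (m + 1) * R) + 1) ≤ Real.log X := by
      apply Real.log_le_log (by positivity)
      refine le_trans ?_ hYX'
      refine le_trans ?_ hT2
      nlinarith
    have h5 : 0 ≤ Real.log (2 * (M * (m + 1) * R) + 1) := Real.log_nonneg (by linarith)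
    have h6 : (R : ℝ) ^ m ≤ q * (C' * Real.log X ^ (m ^ 2)) := by
      refine h1.trans ?_
      apply mul_le_mul_of_nonneg_left _ (Nat.cast_nonneg _)
      apply mul_le_mul_of_nonneg_left _ hC'.le
      exact pow_le_pow_left₀ h5 h4 _
    have h7 : Z ≤ (R : ℝ) ^ m * ((4 * (m + 1) ^ 2 * A) ^ m * (Q : ℝ) ^ m) := by
      rw [← hYZ, ← mul_pow, ← mul_pow]
      apply pow_le_pow_left₀ hY0
      rw [hMr] at hR3
      refine hR3.trans (le_of_eq ?_)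
      ring
    rw [← hZ, div_le_iff₀ (by positivity), div_mul_eq_mul_div, one_mul, div_le_iff₀ (by positivity)]
    calc Z ≤ (R : ℝ) ^ m * ((4 * (m + 1) ^ 2 * A) ^ m * (Q : ℝ) ^ m) := h7
      _ ≤ (q * (C' * Real.log X ^ (m ^ 2))) * ((4 * (m + 1) ^ 2 * A) ^ m * (Q : ℝ) ^ m) :=
          mul_le_mul_of_nonneg_right h6 (by positivity)
      _ = _ := by ring
  · intro p hp hpp
    rcases Nat.lt_or_ge (m + 1) p with hlt | hle
    · refine (h3 i).2.2.2.2 p ⟨1, by rwa [pow_one], ?_⟩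
      rw [pow_one, hM, hQ]
      exact Dvd.dvd.mul_left (Finset.dvd_prod_of_mem (fun p => p) hp) _
    · exact (h3 i).2.2.2.2 p ⟨m + 1, Nat.lt_pow_self hpp.out.one_lt, hfac p hpp.out hle⟩

theorem part2 (m : ℕ) (hm : 2 ≤ m) (ε : ℝ) (hε : 0 < ε) : ∃ δ : ℝ, 0 < δ ∧ ∃ X₀ : ℝ, ∀ X : ℝ, X₀ ≤ X →
    AtLeast (m + 1) X {p | p.Prime ∧ (p : ℝ) ≤ δ * Real.log X} (X ^ ((1 : ℝ) / (m + 1 : ℕ) - ε)) := by
  classical
  obtain ⟨c, C, hc, hC, h⟩ := part1 m hm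
  have hl4 : 0 < Real.log 4 := Real.log_pos (by norm_num)
  have hm0 : (0 : ℝ) < m := by exact_mod_cast (by omega : 0 < m)
  obtain ⟨δ, hδ⟩ : ∃ δ : ℝ, δ = min (1 / 2) (ε / 2) / ((m + 1) * m * Real.log 4) := ⟨_, rfl⟩
  have hmin : 0 < min (1 / 2) (ε / 2) := lt_min (by norm_num) (by linarith)
  have hδ0 : 0 < δ := by rw [hδ]; positivity
  have hδ1 : δ * Real.log 4 * ((m + 1) * m) ≤ 1 / 2 := by
    have : δ * Real.log 4 * ((m + 1) * m) = min (1 / 2) (ε / 2) := by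
      rw [hδ]; field_simp
    rw [this]; exact min_le_left _ _
  have hδ2 : δ * Real.log 4 * m ≤ ε / 2 := by
    have h1 : δ * Real.log 4 * ((m + 1) * m) = min (1 / 2) (ε / 2) := by
      rw [hδ]; field_simp
    have h2 : δ * Real.log 4 * m ≤ δ * Real.log 4 * ((m + 1) * m) := by
      apply mul_le_mul_of_nonneg_left _ (by positivity)
      nlinarith
    exact h2.trans (h1.le.trans (min_le_right _ _))
  -- large X
  have ev1 : ∀ᶠ X : ℝ in atTop, C ^ ((m + 1) * m) ≤ X ^ ((1 : ℝ) / 2) :=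
    (tendsto_rpow_atTop (by norm_num)).eventually_ge_atTop _
  have ev2 : ∀ᶠ X : ℝ in atTop, Real.log X ^ (m ^ 2) ≤ c * X ^ (ε / 2) := by
    have h1 := (isLittleO_log_rpow_rpow_atTop ((m ^ 2 : ℕ) : ℝ) (by linarith : 0 < ε / 2)).bound hc
    filter_upwards [h1, eventually_ge_atTop (1 : ℝ)] with X hX hX1
    rw [Real.rpow_natCast, Real.norm_eq_abs, Real.norm_eq_abs,
      abs_of_nonneg (Real.rpow_nonneg (by linarith) _)] at hX
    exact (le_abs_self _).trans hX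
  obtain ⟨X₀, hX₀⟩ := eventually_atTop.1 (ev1.and (ev2.and (eventually_ge_atTop (2 : ℝ))))
  refine ⟨δ, hδ0, X₀, fun X hX => ?_⟩
  obtain ⟨e1, e2, e3⟩ := hX₀ X hX
  have hX0 : 0 < X := by linarith
  have hlogX : 0 < Real.log X := Real.log_pos (by linarith)
  obtain ⟨N, hN⟩ : ∃ N : ℕ, N = ⌊δ * Real.log X⌋₊ := ⟨_, rfl⟩
  set S : Finset ℕ := (range (N + 1)).filter Nat.Prime with hS
  have hSp : ∀ p ∈ S, p.Prime := fun p hp => (mem_filter.1 hp).2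
  have hP : (∏ p ∈ S, (p : ℝ)) ≤ X ^ (δ * Real.log 4) := by
    have h1 : primorial N ≤ 4 ^ N := primorial_le_four_pow N
    have h2 : (∏ p ∈ S, (p : ℝ)) = (primorial N : ℝ) := by
      unfold primorial
      push_cast
      rfl
    have h3 : (N : ℝ) ≤ δ * Real.log X := by
      rw [hN]; exact Nat.floor_le (by positivity)
    rw [h2]
    calc (primorial N : ℝ) ≤ (4 : ℝ) ^ N := by exact_mod_cast h1
      _ = (4 : ℝ) ^ (N : ℝ) := (Real.rpow_natCast _ _).symm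
      _ ≤ (4 : ℝ) ^ (δ * Real.log X) := Real.rpow_le_rpow_of_exponent_le (by norm_num) h3
      _ = X ^ (δ * Real.log 4) := by
        rw [Real.rpow_def_of_pos (by norm_num), Real.rpow_def_of_pos hX0]
        congr 1
        ring
  have hP0 : 0 < ∏ p ∈ S, (p : ℝ) := prod_pos fun p hp => by exact_mod_cast (hSp p hp).pos
  have h1 := h S hSp X (by
    rw [mul_pow]
    have h2 : (∏ p ∈ S, (p : ℝ)) ^ ((m + 1) * m) ≤ X ^ ((1 : ℝ) / 2) := by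
      calc (∏ p ∈ S, (p : ℝ)) ^ ((m + 1) * m) ≤ (X ^ (δ * Real.log 4)) ^ ((m + 1) * m) :=
            pow_le_pow_left₀ hP0.le hP _
        _ = X ^ (δ * Real.log 4 * ((m + 1) * m)) := by
            rw [← Real.rpow_natCast, ← Real.rpow_mul hX0.le]
            push_cast
            rfl
        _ ≤ X ^ ((1 : ℝ) / 2) := Real.rpow_le_rpow_of_exponent_le (by linarith) hδ1
    calc C ^ ((m + 1) * m) * (∏ p ∈ S, (p : ℝ)) ^ ((m + 1) * m) ≤ X ^ ((1 : ℝ) / 2) * X ^ ((1 : ℝ) / 2) :=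
          mul_le_mul e1 h2 (by positivity) (by positivity)
      _ = X := by rw [← Real.rpow_add hX0]; norm_num)
  refine h1.mono ?_ ?_
  · rw [le_div_iff₀ (by positivity)]
    have h2 : (∏ p ∈ S, (p : ℝ)) ^ m ≤ X ^ (ε / 2) := by
      calc (∏ p ∈ S, (p : ℝ)) ^ m ≤ (X ^ (δ * Real.log 4)) ^ m := pow_le_pow_left₀ hP0.le hP _
        _ = X ^ (δ * Real.log 4 * m) := by
            rw [← Real.rpow_natCast, ← Real.rpow_mul hX0.le]
        _ ≤ X ^ (ε / 2) := Real.rpow_le_rpow_of_exponent_le (by linarith) hδ2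
    calc X ^ ((1 : ℝ) / (m + 1 : ℕ) - ε) * ((∏ p ∈ S, (p : ℝ)) ^ m * Real.log X ^ (m ^ 2))
        ≤ X ^ ((1 : ℝ) / (m + 1 : ℕ) - ε) * (X ^ (ε / 2) * (c * X ^ (ε / 2))) := by
          apply mul_le_mul_of_nonneg_left _ (by positivity)
          exact mul_le_mul h2 e2 (by positivity) (by positivity)
      _ = c * (X ^ ((1 : ℝ) / (m + 1 : ℕ) - ε) * X ^ (ε / 2) * X ^ (ε / 2)) := by ring
      _ = c * X ^ ((1 : ℝ) / (m + 1 : ℕ)) := by
          rw [← Real.rpow_add hX0, ← Real.rpow_add hX0]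
          congr 2
          ring
  · intro p hp
    have h2 : p ≤ N := by
      rw [hN]; exact Nat.le_floor hp.2
    exact mem_coe.2 (mem_filter.2 ⟨mem_range.2 (by omega), hp.1⟩)

end Pool.Agent.Q22.LE
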