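import Pool.Agent.Q22.LE.Mult

set_option autoImplicit false

/-! Many fields satisfying Leopoldt's conjecture. -/

namespace Pool.Agent.Q22.LE

open NumberField Module Finset Polynomial
open Pool.Agent.H637R2.Leo (Leopoldt explicit_family exists_field finrank_eq not_galois)

/-- `0` and numbers in the residue classes `1, ..., m` modulo `m + 1` -/
def bt {m R : ℕ} (c : Fin m → Fin R) : Fin (m + 1) → ℕ :=
  Fin.cons 0 (fun i => (m + 1) * (c i : ℕ) + ((i : ℕ) + 1))

lemma bt_mod {m R : ℕ} (c : Fin m → Fin R) (j : Fin (m + 1)) : bt c j % (m + 1) = j := by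
  refine Fin.cases ?_ (fun i => ?_) j
  · simp [bt]
  · simp only [bt, Fin.cons_succ, Fin.val_succ]
    rw [Nat.mul_add_mod]
    exact Nat.mod_eq_of_lt (by have := i.2; omega)

lemma bt_lt {m R : ℕ} (c : Fin m → Fin R) (hR : 1 ≤ R) (j : Fin (m + 1)) : bt c j < (m + 1) * R := by
  refine Fin.cases ?_ (fun i => ?_) j
  · simp only [bt, Fin.cons_zero]
    positivity
  · simp only [bt, Fin.cons_succ]
    have h1 : (c i : ℕ) + 1 ≤ R := (c i).2
    have h2 := Nat.mul_le_mul_left (m + 1) h1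
    have h3 := i.2
    rw [mul_add, mul_one] at h2
    omega

/-- the tuple of integers -/
def at' {m R : ℕ} (M : ℕ) (c : Fin m → Fin R) (j : Fin (m + 1)) : ℤ := ((M * bt c j : ℕ) : ℤ)

lemma at_inj {m R M : ℕ} (hM : 1 ≤ M) (c : Fin m → Fin R) : Function.Injective (at' M c) := by
  intro i j hij
  have h1 : M * bt c i = M * bt c j := by
    unfold at' at hij
    exact_mod_cast hij
  have h2 := Nat.eq_of_mul_eq_mul_left (by omega) h1
  have h3 := bt_mod c i
  rw [h2, bt_mod] at h3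
  exact Fin.ext h3.symm

lemma at_inj' {m R M : ℕ} (hM : 1 ≤ M) : Function.Injective (at' (m := m) (R := R) M) := by
  intro c d hcd
  funext i
  have h1 := congrFun hcd i.succ
  unfold at' at h1
  have h2 : M * bt c i.succ = M * bt d i.succ := by exact_mod_cast h1
  have h3 := Nat.eq_of_mul_eq_mul_left (by omega) h2
  simp only [bt, Fin.cons_succ] at h3
  have h4 : (m + 1) * (c i : ℕ) = (m + 1) * (d i : ℕ) := by omega
  exact Fin.ext (Nat.eq_of_mul_eq_mul_left (by omega) h4)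

lemma at_zero {m R M : ℕ} (c : Fin m → Fin R) : at' M c 0 = 0 := by
  simp [at', bt]

lemma at_le {m R M : ℕ} (c : Fin m → Fin R) (hR : 1 ≤ R) (j : Fin (m + 1)) :
    |(at' M c j : ℝ)| ≤ (M * (m + 1) * R : ℝ) := by
  unfold at'
  have h1 : bt c j ≤ (m + 1) * R := (bt_lt c hR j).le
  have h2 : M * bt c j ≤ M * ((m + 1) * R) := Nat.mul_le_mul_left _ h1
  have h3 : ((M * bt c j : ℕ) : ℝ) ≤ ((M * ((m + 1) * R) : ℕ) : ℝ) := by exact_mod_cast h2
  rw [Int.cast_natCast, abs_of_nonneg (Nat.cast_nonneg _)]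
  refine h3.trans (le_of_eq ?_)
  push_cast
  ring

theorem count (m : ℕ) (hm : 2 ≤ m) : ∃ C : ℝ, 0 < C ∧ ∀ M R : ℕ, 1 ≤ M → 1 ≤ R → m.minFac ∣ M →
    (m + 1 < 2 ^ (m + 1) ∧ 2 ^ (m + 1) ∣ M) →
    ∀ X : ℝ, ((m + 1).factorial : ℝ) ^ 2 * ((M * (m + 1) * R : ℝ) + 1) ^ ((m + 1) * m) ≤ X →
    ∃ (q : ℕ) (K : Fin q → Type) (_ : ∀ i, Field (K i)) (_ : ∀ i, NumberField (K i)),
      (R : ℝ) ^ m ≤ q * (C * Real.log (2 * (M * (m + 1) * R) + 1) ^ (m ^ 2)) ∧
      (∀ i j, i ≠ j → IsEmpty (K i ≃+* K j)) ∧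
      ∀ i, finrank ℚ (K i) = m + 1 ∧ IsTotallyReal (K i) ∧ ¬ IsGalois ℚ (K i) ∧
        |(discr (K i) : ℝ)| ≤ X ∧
        ∀ (p : ℕ) [Fact p.Prime], (∃ κ : ℕ, m + 1 < p ^ κ ∧ p ^ κ ∣ M) → Leopoldt (K i) p := by
  classical
  obtain ⟨C, hC, hmult⟩ := mult m
  refine ⟨C, hC, ?_⟩
  intro M R hM hR hq0 h2 X hX
  choose K hF hN θ hθ hgen using fun c : Fin m → Fin R =>
    exists_field (by omega : 1 ≤ m + 1) (at' M c) (at_inj hM c)
  let st : Setoid (Fin m → Fin R) :=
    { r := fun c d => Nonempty (K c ≃+* K d)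
      iseqv := ⟨fun c => ⟨RingEquiv.refl _⟩, fun ⟨e⟩ => ⟨e.symm⟩, fun ⟨e⟩ ⟨f⟩ => ⟨e.trans f⟩⟩ }
  let e : Quotient st ≃ Fin (Fintype.card (Quotient st)) := Fintype.equivFin _
  have hMR : ∀ (c : Fin m → Fin R) (j : Fin (m + 1)) (p κ : ℕ), p ^ κ ∣ M → (p : ℤ) ^ κ ∣ at' M c j := by
    intro c j p κ h
    unfold at'
    have : p ^ κ ∣ M * bt c j := Dvd.dvd.mul_right h _
    exact_mod_cast this
  have hT1 : (1 : ℝ) ≤ (M * (m + 1) * R : ℝ) := by
    have h1 : 1 ≤ M * (m + 1) * R := Nat.mul_pos (Nat.mul_pos hM (by omega)) hR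
    exact_mod_cast h1
  refine ⟨Fintype.card (Quotient st), fun i => K (e.symm i).out, fun i => hF _, fun i => hN _, ?_, ?_, ?_⟩
  · -- counting
    have h1 : ∀ x : Quotient st, (((univ.filter fun c : Fin m → Fin R =>
        (Quotient.mk st c) = x).card : ℕ) : ℝ) ≤ C * Real.log (2 * (M * (m + 1) * R) + 1) ^ (m ^ 2) := by
      intro x
      rw [← Finset.card_image_of_injective _ (at_inj' (m := m) (R := R) hM)]
      refine hmult (K x.out) (finrank_eq (by omega) (at' M x.out) (at_inj hM _) (θ x.out) (hθ _) (hgen _))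
        (M * (m + 1) * R) hT1 _ ?_
      intro a ha
      rw [mem_image] at ha
      obtain ⟨c, hc, rfl⟩ := ha
      rw [mem_filter] at hc
      refine ⟨at_zero c, fun i => at_le c hR i, ?_⟩
      have h3 : Quotient.mk st c = Quotient.mk st x.out := by rw [hc.2, Quotient.out_eq]
      obtain ⟨g⟩ : Nonempty (K c ≃+* K x.out) := Quotient.exact h3
      refine ⟨g (θ c), ?_⟩
      have h4 := congrArg g (hθ c)
      rw [map_prod, map_one] at h4
      rw [← h4]
      refine prod_congr rfl fun i _ => ?_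
      rw [map_sub, map_intCast]
    have h2 : ((univ : Finset (Fin m → Fin R)).card) = ∑ x : Quotient st, (univ.filter fun c : Fin m → Fin R =>
        (Quotient.mk st c) = x).card :=
      Finset.card_eq_sum_card_fiberwise (fun _ _ => mem_univ _)
    rw [card_univ, Fintype.card_fun, Fintype.card_fin, Fintype.card_fin] at h2
    have h3 : (R : ℝ) ^ m = ∑ x : Quotient st, (((univ.filter fun c : Fin m → Fin R =>
        (Quotient.mk st c) = x).card : ℕ) : ℝ) := by exact_mod_cast h2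
    rw [h3]
    refine (sum_le_sum fun x _ => h1 x).trans (le_of_eq ?_)
    rw [sum_const, card_univ, nsmul_eq_mul]
  · intro i j hij
    refine ⟨fun g => hij ?_⟩
    have h1 : (e.symm i).out ≈ (e.symm j).out := ⟨g⟩
    rw [Quotient.out_equiv_out] at h1
    exact e.symm.injective h1
  · intro i
    obtain ⟨c, hc⟩ : ∃ c, c = (e.symm i).out := ⟨_, rfl⟩
    change finrank ℚ (K (e.symm i).out) = m + 1 ∧ IsTotallyReal (K (e.symm i).out) ∧
      ¬ IsGalois ℚ (K (e.symm i).out) ∧ |(discr (K (e.symm i).out) : ℝ)| ≤ X ∧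
        ∀ (p : ℕ) [Fact p.Prime], (∃ κ : ℕ, m + 1 < p ^ κ ∧ p ^ κ ∣ M) →
          Leopoldt (K (e.symm i).out) p
    rw [← hc]
    have hmp : m.minFac.Prime := Nat.minFac_prime (by omega)
    refine ⟨finrank_eq (by omega) (at' M c) (at_inj hM _) (θ c) (hθ c) (hgen c), ?_, ?_, ?_, ?_⟩
    · have : Fact (Nat.Prime 2) := ⟨Nat.prime_two⟩
      refine (explicit_family 2 (m + 1) (m + 1) (by omega) h2.1 (at' M c) (at_inj hM c)
        (fun i j => dvd_sub (hMR c i 2 _ h2.2) (hMR c j 2 _ h2.2)) (K c) (θ c) (hθ c) (hgen c)).2.1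
    · refine not_galois (by omega) (at' M c) (at_inj hM c) (θ c) (hθ c) (hgen c) m.minFac hmp
        (by simpa using Nat.minFac_dvd m) fun i => ?_
      have := hMR c i m.minFac 1 (by rwa [pow_one])
      rwa [pow_one] at this
    · refine (discr_le (at' M c) (at_inj hM c) (M * (m + 1) * R) (by linarith)
        (fun i => at_le c hR i) (θ c) (hθ c) (hgen c)).trans hX
    · intro p hp ⟨κ, hκ1, hκ2⟩
      exact (explicit_family p (m + 1) κ (by omega) hκ1 (at' M c) (at_inj hM c)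
        (fun i j => dvd_sub (hMR c i p _ hκ2) (hMR c j p _ hκ2)) (K c) (θ c) (hθ c) (hgen c)).2.2

end Pool.Agent.Q22.LE
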