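import Pool.Agent.Q22.LE.Cnt
import Pool.Agent.H637R2.Leo.Final
import Pool.Agent.W231.R.Disc

set_option autoImplicit false

/-! How many tuples `a` give the same field `ℚ(θ)`, `∏ (θ - a_i) = 1`; the discriminant. -/

namespace Pool.Agent.Q22.LE

open NumberField Module Finset Polynomial
open Pool.Agent.H637R2.Leo (f aeval_f th_coe theta_integral minpoly_theta finrank_eq)

/-- all the conjugates of `θ` are close to one of the `a_i` -/
lemma conj_le {m : ℕ} (a : Fin (m + 1) → ℤ) (T : ℝ) (ha : ∀ i, |(a i : ℝ)| ≤ T) {K : Type} [Field K]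
    (θ : K) (hθ : ∏ i, (θ - (a i : K)) = 1) (φ : K →+* ℂ) : ‖φ θ‖ ≤ T + 1 := by
  by_contra hcon
  push Not at hcon
  have h1 := congrArg φ hθ
  rw [map_prod, map_one] at h1
  have h2 := congrArg (fun z : ℂ => ‖z‖) h1
  simp only [norm_prod, norm_one] at h2
  have h3 : ∀ i, 1 < ‖φ (θ - (a i : K))‖ := by
    intro i
    rw [map_sub, map_intCast]
    have h4 : ‖φ θ‖ ≤ ‖φ θ - (a i : ℂ)‖ + ‖((a i : ℤ) : ℂ)‖ := norm_le_norm_sub_add _ _
    have h5 : ‖((a i : ℤ) : ℂ)‖ = |(a i : ℝ)| := by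
      rw [Complex.norm_intCast]
    have h6 := ha i
    rw [h5] at h4
    linarith
  have h4 : (1 : ℝ) < ∏ i : Fin (m + 1), ‖φ (θ - (a i : K))‖ := by
    calc (1 : ℝ) = ∏ _i : Fin (m + 1), (1 : ℝ) := by simp
      _ < _ := Finset.prod_lt_prod_of_nonempty (fun i _ => one_pos) (fun i _ => h3 i)
        ⟨0, mem_univ _⟩
  linarith

/-- the units `θ - a_i` -/
lemma exists_unit {m : ℕ} (a : Fin (m + 1) → ℤ) {K : Type} [Field K] [NumberField K]
    (θ : K) (hθ : ∏ i, (θ - (a i : K)) = 1) :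
    ∃ u : Fin (m + 1) → (𝓞 K)ˣ, (∀ i, ((u i : 𝓞 K) : K) = θ - (a i : K)) ∧ ∏ i, u i = 1 := by
  have hint : IsIntegral ℤ θ := theta_integral (by omega) a θ hθ
  have h1 : ∏ i, (Pool.Agent.H637R2.Leo.th θ hint - (a i : 𝓞 K)) = 1 := by
    apply FaithfulSMul.algebraMap_injective (𝓞 K) K
    rw [map_prod, map_one, ← hθ]
    refine Finset.prod_congr rfl fun i _ => ?_
    rw [map_sub, map_intCast, th_coe]
  have h2 : ∀ i, IsUnit (Pool.Agent.H637R2.Leo.th θ hint - (a i : 𝓞 K)) := by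
    intro i
    apply isUnit_of_dvd_one
    rw [← h1]
    exact Finset.dvd_prod_of_mem (fun i => (Pool.Agent.H637R2.Leo.th θ hint - (a i : 𝓞 K))) (mem_univ i)
  refine ⟨fun i => (h2 i).unit, fun i => ?_, ?_⟩
  · change algebraMap (𝓞 K) K (Pool.Agent.H637R2.Leo.th θ hint - (a i : 𝓞 K)) = _
    rw [map_sub, map_intCast, th_coe]
  · apply Units.ext
    rw [Units.coe_prod, Units.val_one]
    exact h1

/-- the number of tuples belonging to one field -/
theorem mult (m : ℕ) : ∃ C : ℝ, 0 < C ∧ ∀ (K : Type) [Field K] [NumberField K],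
    finrank ℚ K = m + 1 → ∀ T : ℝ, 1 ≤ T → ∀ s : Finset (Fin (m + 1) → ℤ),
      (∀ a ∈ s, a 0 = 0 ∧ (∀ i, |(a i : ℝ)| ≤ T) ∧ ∃ θ : K, ∏ i, (θ - (a i : K)) = 1) →
      (s.card : ℝ) ≤ C * Real.log (2 * T + 1) ^ (m ^ 2) := by
  classical
  obtain ⟨C, hC, hcu⟩ := card_units (m + 1) (by omega)
  refine ⟨C ^ m, by positivity, ?_⟩
  intro K _ _ hK T hT s hs
  choose! θ hθ using fun a ha => (hs a ha).2.2
  choose! u hu hu1 using fun a ha => exists_unit a (θ a) (hθ a ha)
  set W : Finset (𝓞 K)ˣ := s.biUnion (fun a => univ.image (fun i : Fin (m + 1) => u a i)) with hW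
  have hWc : (W.card : ℝ) ≤ C * Real.log (2 * T + 1) ^ m := by
    have h1 := hcu K hK (2 * T + 1) (by linarith) W ?_
    · simpa using h1
    · intro x hx φ
      rw [hW, mem_biUnion] at hx
      obtain ⟨a, ha, hx⟩ := hx
      rw [mem_image] at hx
      obtain ⟨i, -, rfl⟩ := hx
      rw [hu a ha i, map_sub, map_intCast]
      have h1 := conj_le a T (hs a ha).2.1 (θ a) (hθ a ha) φ
      have h2 : ‖((a i : ℤ) : ℂ)‖ = |(a i : ℝ)| := by rw [Complex.norm_intCast]
      have h3 := (hs a ha).2.1 i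
      have h4 := norm_sub_le (φ (θ a)) ((a i : ℤ) : ℂ)
      rw [h2] at h4
      linarith
  have hcard : s.card ≤ (Fintype.piFinset (fun _ : Fin m => W)).card := by
    refine Finset.card_le_card_of_injOn (fun a => fun i : Fin m => u a i.castSucc) ?_ ?_
    · intro a ha
      rw [mem_coe, Fintype.mem_piFinset]
      intro i
      rw [hW, mem_biUnion]
      exact ⟨a, ha, mem_image_of_mem _ (mem_univ _)⟩
    · intro a ha b hb hab
      rw [mem_coe] at ha hb
      have h1 : ∀ i : Fin m, u a i.castSucc = u b i.castSucc := fun i => congrFun hab i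
      have h2 : u a (Fin.last m) = u b (Fin.last m) := by
        have ha1 := hu1 a ha
        have hb1 := hu1 b hb
        rw [Fin.prod_univ_castSucc] at ha1 hb1
        rw [prod_congr rfl fun i _ => h1 i] at ha1
        exact mul_left_cancel (ha1.trans hb1.symm)
      have h3 : ∀ i, u a i = u b i := by
        intro i
        refine Fin.lastCases h2 (fun i => h1 i) i
      have h4 : ∀ i, θ a - (a i : K) = θ b - (b i : K) := by
        intro i
        rw [← hu a ha i, ← hu b hb i, h3 i]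
      have h5 : θ a = θ b := by
        have := h4 0
        rw [(hs a ha).1, (hs b hb).1] at this
        simpa using this
      funext i
      have h6 := h4 i
      rw [h5] at h6
      have h7 : ((a i : ℤ) : K) = ((b i : ℤ) : K) := by
        linear_combination -h6
      exact_mod_cast h7
  rw [Fintype.card_piFinset, prod_const, card_univ, Fintype.card_fin] at hcard
  calc (s.card : ℝ) ≤ (W.card : ℝ) ^ m := by exact_mod_cast hcard
    _ ≤ (C * Real.log (2 * T + 1) ^ m) ^ m := pow_le_pow_left₀ (Nat.cast_nonneg _) hWc _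
    _ = _ := by rw [mul_pow, ← pow_mul, pow_two]

/-- the discriminant -/
theorem discr_le {m : ℕ} (a : Fin (m + 1) → ℤ) (hinj : Function.Injective a) (T : ℝ) (hT : 0 ≤ T)
    (ha : ∀ i, |(a i : ℝ)| ≤ T) {K : Type} [Field K] [NumberField K] (θ : K)
    (hθ : ∏ i, (θ - (a i : K)) = 1) (hgen : IntermediateField.adjoin ℚ {θ} = ⊤) :
    |(discr K : ℝ)| ≤ ((m + 1).factorial : ℝ) ^ 2 * (T + 1) ^ ((m + 1) * m) := by
  have hint : IsIntegral ℤ θ := theta_integral (by omega) a θ hθ
  have hfin : finrank ℚ K = m + 1 := finrank_eq (by omega) a hinj θ hθ hgen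
  have hadj : Algebra.adjoin ℚ {θ} = ⊤ := by
    rw [← IntermediateField.adjoin_simple_toSubalgebra_of_isAlgebraic
      (Algebra.IsAlgebraic.isAlgebraic _), hgen]
    rfl
  obtain ⟨pb, hpb⟩ : ∃ pb : PowerBasis ℚ K, pb.gen = θ :=
    ⟨PowerBasis.ofAdjoinEqTop (hint.tower_top) hadj, PowerBasis.ofAdjoinEqTop_gen _ _⟩
  have hdim : pb.dim = m + 1 := by rw [← hfin, pb.finrank]
  have hb : ∀ i, IsIntegral ℤ (pb.basis i) := by
    intro i
    rw [pb.basis_eq_pow, hpb]
    exact hint.pow _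
  have h1 := Pool.Agent.W231.R.abs_discr_le pb.basis hb (fun i => (T + 1) ^ (i : ℕ)) (by
    intro i σ
    rw [pb.basis_eq_pow, hpb, map_pow, norm_pow]
    exact pow_le_pow_left₀ (norm_nonneg _) (conj_le a T ha θ hθ σ) _)
  refine h1.trans (le_of_eq ?_)
  have h2 : (∑ i : Fin pb.dim, (i : ℕ)) * 2 = (m + 1) * m := by
    rw [Fin.sum_univ_eq_sum_range (fun i => i) pb.dim, hdim, Finset.sum_range_id_mul_two]
    simp
  rw [Fintype.card_fin, mul_pow, Finset.prod_pow_eq_pow_sum, ← pow_mul, h2, hdim]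

end Pool.Agent.Q22.LE
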