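import Pool.Agent.Q22.LE.Mult
import Pool.Agent.Q22.LE.Cls
import Pool.Agent.Y789.SG.Main
import Pool.Agent.Y789.SG.Exist
import Pool.Agent.Y789.SG.ExistF

set_option autoImplicit false

/-! Many fields with a character satisfying the `Σ`-Leopoldt conjecture. -/

namespace Pool.Agent.Q22.LE

open NumberField Module Finset Polynomial Filter Topology
open Pool.Agent.H637R2.Leo (finrank_eq)
open Pool.Agent.W289.SL (IsCMType SigmaLeopoldt)

/-- the CM field and the character over the totally real field `F` -/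
def HasChar (P : Set ℕ) (k : Type) [Field k] (F : Type) [Field F] : Prop :=
  ∃ (K : Type) (_ : Field K) (_ : NumberField K) (_ : Algebra F K) (α : K), Nonempty (k →+* K) ∧
    finrank F K = 2 ∧ IsTotallyComplex K ∧ ¬ IsSquare α ∧
    (∀ c : K ≃ₐ[F] K, c ≠ 1 → ¬ IsSquare (α * c α)) ∧
    ∀ (H : Type) [Field H] [NumberField H] [Algebra K H] (θ : H), finrank K H = 2 →
      θ ^ 2 = algebraMap K H α → ∀ p ∈ P, ∀ [Fact p.Prime], ∀ S : Set (K →+* ℂ_[p]),
        IsCMType p F K S → ∀ χ : (H ≃ₐ[K] H) →* ℂ_[p]ˣ, χ ≠ 1 → SigmaLeopoldt p K H S χ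

/-- existence for all large parameters -/
theorem sig_family (P : Finset ℕ) (hP : ∀ p ∈ P, p.Prime) (k : Type) [Field k] [NumberField k]
    [IsTotallyComplex k] (hk : finrank ℚ k = 2) (d : ℕ) (hd : 0 < d) :
    ∃ (b : Fin d → ℤ), Function.Injective b ∧ ∃ t₀ : ℕ, ∀ t : ℕ, t₀ ≤ t →
      ∃ (F : Type) (_ : Field F) (_ : NumberField F) (w : F), ∏ i, (w - (b i : F) * (t : F) ^ 2) = 1 ∧
        IntermediateField.adjoin ℚ {w} = ⊤ ∧ finrank ℚ F = d ∧ IsTotallyReal F ∧ HasChar P k F := by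
  classical
  obtain ⟨b, a, β, hb, h2, h3, h4⟩ := Pool.Agent.Y789.SG.exists_data hk d hd
  have hmain : ∀ p : ℕ, ∃ S₀ : Set ℤ, S₀.Finite ∧ (p ∈ P → ∀ [Fact p.Prime], ∀ t : ℤ, t ∉ S₀ →
      ∀ (F K : Type) [Field F] [NumberField F] [Field K] [NumberField K] [Algebra F K]
        [Algebra k K] (w : F), Module.finrank F K = 2 →
        ∏ i, (w - (b i : F) * (t : F) ^ 2) = 1 → IntermediateField.adjoin ℚ {w} = ⊤ →
        Module.finrank ℚ F = d ∧ IsTotallyReal F ∧ IsTotallyComplex K ∧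
        ¬ IsSquare (algebraMap F K w - algebraMap k K a * (t : K) ^ 2) ∧
        ((∀ n : ℤ, ∏ i, β i ^ 2 ≠ (n : 𝓞 k)) → ∀ c : K ≃ₐ[F] K, c ≠ 1 →
          ¬ IsSquare ((algebraMap F K w - algebraMap k K a * (t : K) ^ 2) *
            c (algebraMap F K w - algebraMap k K a * (t : K) ^ 2))) ∧
        ∀ (H : Type) [Field H] [NumberField H] [Algebra K H] (θ : H),
          Module.finrank K H = 2 →
          θ ^ 2 = algebraMap K H (algebraMap F K w - algebraMap k K a * (t : K) ^ 2) →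
          ∀ S : Set (K →+* ℂ_[p]), IsCMType p F K S →
            ∀ χ : (H ≃ₐ[K] H) →* ℂ_[p]ˣ, χ ≠ 1 → SigmaLeopoldt p K H S χ) := by
    intro p
    by_cases hp : p ∈ P
    · have : Fact p.Prime := ⟨hP p hp⟩
      obtain ⟨S₀, hS₀, h⟩ := Pool.Agent.Y789.SG.main_thm p k hk d hd b hb a β h2 h3
      exact ⟨S₀, hS₀, fun _ _ => h⟩
    · exact ⟨∅, Set.finite_empty, fun h => absurd h hp⟩
  choose S₀ hS₀ hmain using hmain
  -- the prime 2 is used for the properties which do not depend on `p`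
  have : Fact (Nat.Prime 2) := ⟨Nat.prime_two⟩
  obtain ⟨S₂, hS₂, hmain2⟩ := Pool.Agent.Y789.SG.main_thm 2 k hk d hd b hb a β h2 h3
  have hfin : (S₂ ∪ ⋃ p ∈ P, S₀ p).Finite := hS₂.union (Set.Finite.biUnion P.finite_toSet fun p _ => hS₀ p)
  obtain ⟨B, hB⟩ := hfin.bddAbove
  refine ⟨b, hb, B.toNat + 2, fun t ht => ?_⟩
  have htB : (t : ℤ) ∉ (S₂ ∪ ⋃ p ∈ P, S₀ p) := by
    intro h
    have h1 := hB h
    have h5 := Int.self_le_toNat B
    omega
  rw [Set.mem_union, not_or] at htB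
  have htS : ∀ p ∈ P, (t : ℤ) ∉ S₀ p := by
    intro p hp h
    exact htB.2 (Set.mem_biUnion hp h)
  have hgap : ∀ i j, i ≠ j → 2 ≤ |b i * (t : ℤ) ^ 2 - b j * (t : ℤ) ^ 2| := by
    intro i j hij
    have h1 : b i - b j ≠ 0 := sub_ne_zero.2 fun h => hij (hb h)
    have h5 := Int.one_le_abs h1
    have h6 : (2 : ℤ) ≤ t := by omega
    have h7 : (2 : ℤ) ≤ (t : ℤ) ^ 2 := by nlinarith
    rw [← sub_mul, abs_mul, abs_of_nonneg (by positivity : (0 : ℤ) ≤ (t : ℤ) ^ 2)]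
    nlinarith
  obtain ⟨F, K, i1, i2, i3, i4, i5, i6, w, e1, e2, e3⟩ :=
    Pool.Agent.Y789.SG.exists_fields (k := k) hk d hd (fun i => b i * (t : ℤ) ^ 2) hgap
  have e2' : ∏ i, (w - (b i : F) * (((t : ℕ) : ℤ) : F) ^ 2) = 1 := by
    rw [← e2]
    refine Finset.prod_congr rfl fun i _ => ?_
    push_cast
    ring
  obtain ⟨f1, f2, f3, f4, f5, -⟩ := hmain2 t htB.1 F K w e1 e2' e3
  refine ⟨F, i1, i2, w, ?_, e3, f1, f2, K, i3, i4, i5,
    algebraMap F K w - algebraMap k K a * (((t : ℕ) : ℤ) : K) ^ 2, ⟨algebraMap k K⟩, e1, f3, f4,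
    f5 h4, ?_⟩
  · have e7 : (((t : ℕ) : ℤ) : F) = (t : F) := Int.cast_natCast t
    rw [← e7]
    exact e2'
  · intro H _ _ _ θ hH hθ p hp _
    exact (hmain p hp t (htS p hp) F K w e1 e2' e3).2.2.2.2.2 H θ hH hθ

/-- counting -/
theorem sig_count (P : Finset ℕ) (hP : ∀ p ∈ P, p.Prime) (k : Type) [Field k] [NumberField k]
    [IsTotallyComplex k] (hk : finrank ℚ k = 2) (m : ℕ) (hm : 1 ≤ m) :
    ∃ (C B : ℝ) (t₀ : ℕ), 0 < C ∧ 1 ≤ B ∧ ∀ R : ℕ, 1 ≤ R → ∀ X : ℝ,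
      ((m + 1).factorial : ℝ) ^ 2 * (B * R ^ 2 + 1) ^ ((m + 1) * m) ≤ X →
      ∃ (q : ℕ) (F : Fin q → Type) (_ : ∀ i, Field (F i)) (_ : ∀ i, NumberField (F i)),
        (R : ℝ) - t₀ ≤ q * (C * Real.log (2 * (B * R ^ 2) + 1) ^ (m ^ 2)) ∧
        (∀ i j, i ≠ j → IsEmpty (F i ≃+* F j)) ∧
        ∀ i, finrank ℚ (F i) = m + 1 ∧ IsTotallyReal (F i) ∧ |(discr (F i) : ℝ)| ≤ X ∧
          HasChar P k (F i) := by
  classical
  obtain ⟨b, hb, t₀, hfam⟩ := sig_family P hP k hk (m + 1) (by omega)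
  obtain ⟨C, hC, hmult⟩ := mult m
  -- normalised tuples
  set a : ℕ → Fin (m + 1) → ℤ := fun t i => (b i - b 0) * (t : ℤ) ^ 2 with ha
  obtain ⟨B, hB1, hB⟩ : ∃ B : ℝ, 1 ≤ B ∧ ∀ i, |((b i - b 0 : ℤ) : ℝ)| ≤ B := by
    refine ⟨1 + ∑ i, |((b i - b 0 : ℤ) : ℝ)|, ?_, fun i => ?_⟩
    · have : 0 ≤ ∑ i, |((b i - b 0 : ℤ) : ℝ)| := sum_nonneg fun i _ => abs_nonneg _
      linarith
    · have := Finset.single_le_sum (f := fun i => |((b i - b 0 : ℤ) : ℝ)|) (fun i _ => abs_nonneg _) (mem_univ i)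
      linarith
  refine ⟨C, B, t₀ + 1, hC, hB1, ?_⟩
  intro R hR X hX
  have hR1 : (1 : ℝ) ≤ R := by exact_mod_cast hR
  have hT1 : 1 ≤ B * (R : ℝ) ^ 2 := by nlinarith
  let ι : Type := {t : ℕ // t₀ + 1 ≤ t}
  choose F hF hN w hw hgen hfin hreal hchar using fun t : ι => hfam t.1 (by have := t.2; omega)
  have ha0 : ∀ t, a t 0 = 0 := by intro t; simp [ha]
  have hainj : ∀ t : ι, Function.Injective (a t.1) := by
    intro t i j hij
    rw [ha] at hij
    simp only at hij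
    have ht : ((t.1 : ℤ)) ^ 2 ≠ 0 := by
      have h1 := t.2
      have h2 : (t.1 : ℤ) ≠ 0 := by exact_mod_cast (by omega : t.1 ≠ 0)
      positivity
    have h1 := mul_right_cancel₀ ht hij
    exact hb (by linarith)
  have hale : ∀ t : ι, t.1 ≤ R → ∀ i, |(a t.1 i : ℝ)| ≤ B * (R : ℝ) ^ 2 := by
    intro t ht i
    rw [ha]
    simp only
    rw [Int.cast_mul, abs_mul]
    apply mul_le_mul (hB i) _ (abs_nonneg _) (by linarith)
    have h1 : (t.1 : ℝ) ≤ R := by exact_mod_cast ht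
    push_cast
    rw [abs_of_nonneg (by positivity)]
    exact pow_le_pow_left₀ (Nat.cast_nonneg _) h1 2
  have hθ : ∀ t : ι, ∏ i, ((w t - (b 0 : F t) * ((t.1 : ℕ) : F t) ^ 2) - (a t.1 i : F t)) = 1 := by
    intro t
    rw [← hw t]
    refine prod_congr rfl fun i _ => ?_
    rw [ha]
    push_cast
    ring
  have hgen' : ∀ t : ι, IntermediateField.adjoin ℚ {w t - (b 0 : F t) * ((t.1 : ℕ) : F t) ^ 2} = ⊤ := by
    intro t
    rw [eq_top_iff, ← hgen t, IntermediateField.adjoin_simple_le_iff]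
    have h1 := add_mem (IntermediateField.mem_adjoin_simple_self ℚ (w t - (b 0 : F t) * ((t.1 : ℕ) : F t) ^ 2))
      (mul_mem (intCast_mem (IntermediateField.adjoin ℚ {w t - (b 0 : F t) * ((t.1 : ℕ) : F t) ^ 2}) (b 0))
        (pow_mem (natCast_mem _ t.1) 2))
    rwa [sub_add_cancel] at h1
  set s : Finset ι := (Finset.Icc (t₀ + 1) R).subtype (fun t => t₀ + 1 ≤ t) with hs
  have hsc : s.card = R - t₀ := by
    rw [hs, Finset.card_subtype, Finset.filter_true_of_mem (fun t ht => (mem_Icc.1 ht).1), Nat.card_Icc]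
    omega
  have hsR : ∀ t ∈ s, t.1 ≤ R := by
    intro t ht
    rw [hs, Finset.mem_subtype] at ht
    exact (mem_Icc.1 ht).2
  obtain ⟨q, f, h1, h2, h3⟩ := classes s F (C * Real.log (2 * (B * R ^ 2) + 1) ^ (m ^ 2)) (by
    intro t ht u hu hiso
    have hinj : Set.InjOn (fun t : ι => a t.1) (u : Set ι) := by
      intro t ht t' ht' htt
      have h1 := congrFun htt (Fin.last m)
      rw [ha] at h1
      simp only at h1
      have h4 : b (Fin.last m) - b 0 ≠ 0 := by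
        rw [sub_ne_zero]
        intro h
        have h5 := congrArg Fin.val (hb h)
        rw [Fin.val_last, Fin.val_zero] at h5
        omega
      have h5 := mul_left_cancel₀ h4 h1
      have h6 : t.1 ^ 2 = t'.1 ^ 2 := by exact_mod_cast h5
      exact Subtype.ext (Nat.pow_left_injective (by norm_num : 2 ≠ 0) h6)
    rw [← Finset.card_image_of_injOn hinj]
    refine hmult (F t) (hfin t) (B * R ^ 2) hT1 _ ?_
    intro x hx
    rw [mem_image] at hx
    obtain ⟨t', ht', rfl⟩ := hx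
    refine ⟨ha0 _, hale t' (hsR t' (hu ht')), ?_⟩
    obtain ⟨g⟩ := hiso t' ht'
    refine ⟨g (w t' - (b 0 : F t') * ((t'.1 : ℕ) : F t') ^ 2), ?_⟩
    have h4 := congrArg g (hθ t')
    rw [map_prod, map_one] at h4
    rw [← h4]
    refine prod_congr rfl fun i _ => ?_
    rw [map_sub g (w t' - (b 0 : F t') * ((t'.1 : ℕ) : F t') ^ 2) _, map_intCast g (a t'.1 i)])
  refine ⟨q, fun i => F (f i), fun i => hF _, fun i => hN _, ?_, h3, fun i => ⟨hfin _, hreal _, ?_, hchar _⟩⟩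
  · refine le_trans ?_ h1
    rw [hsc]
    have h4 : (R : ℝ) ≤ ((R - t₀ : ℕ) : ℝ) + t₀ := by
      have : R ≤ (R - t₀) + t₀ := by omega
      exact_mod_cast this
    push_cast
    linarith
  · refine (discr_le (a (f i).1) (hainj (f i)) (B * R ^ 2) (by linarith) (hale (f i) (hsR _ (h2 i)))
      _ (hθ (f i)) (hgen' (f i))).trans hX

end Pool.Agent.Q22.LE
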