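import Pool.Agent.Q22.LE.Sig

set_option autoImplicit false

/-! The final estimate. -/

namespace Pool.Agent.Q22.LE

open NumberField Module Finset Polynomial Filter Topology

theorem sig_final (P : Finset ℕ) (hP : ∀ p ∈ P, p.Prime) (k : Type) [Field k] [NumberField k]
    [IsTotallyComplex k] (hk : finrank ℚ k = 2) (m : ℕ) (hm : 1 ≤ m) :
    ∃ c : ℝ, 0 < c ∧ ∃ X₀ : ℝ, ∀ X : ℝ, X₀ ≤ X →
      ∃ (q : ℕ) (F : Fin q → Type) (_ : ∀ i, Field (F i)) (_ : ∀ i, NumberField (F i)),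
        c * X ^ ((1 : ℝ) / (2 * ((m + 1) * m) : ℕ)) / Real.log X ^ (m ^ 2) ≤ q ∧
        (∀ i j, i ≠ j → IsEmpty (F i ≃+* F j)) ∧
        ∀ i, finrank ℚ (F i) = m + 1 ∧ IsTotallyReal (F i) ∧ |(discr (F i) : ℝ)| ≤ X ∧
          HasChar P k (F i) := by
  obtain ⟨C, B, t₀, hC, hB, h⟩ := sig_count P hP k hk m hm
  obtain ⟨e, he⟩ : ∃ e : ℕ, e = 2 * ((m + 1) * m) := ⟨_, rfl⟩
  have he0 : e ≠ 0 := by rw [he]; positivity
  obtain ⟨D, hD⟩ : ∃ D : ℝ, D = ((m + 1).factorial : ℝ) ^ 2 * (2 * B) ^ ((m + 1) * m) := ⟨_, rfl⟩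
  have hB0 : 0 < B := by linarith
  have hD0 : 0 < D := by rw [hD]; positivity
  obtain ⟨E, hE⟩ : ∃ E : ℝ, E = D ^ ((e : ℝ)⁻¹) := ⟨_, rfl⟩
  have hE0 : 0 < E := by rw [hE]; exact Real.rpow_pos_of_pos hD0 _
  have hEe : E ^ e = D := by rw [hE]; exact Real.rpow_inv_natCast_pow hD0.le he0
  have ev : ∀ᶠ X : ℝ in atTop, 4 * ((t₀ : ℝ) + 1) * E ≤ X ^ ((e : ℝ)⁻¹) :=
    (tendsto_rpow_atTop (by positivity)).eventually_ge_atTop _
  obtain ⟨X₀, hX₀⟩ := eventually_atTop.1 (ev.and (eventually_ge_atTop (2 : ℝ)))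
  refine ⟨1 / (4 * C * E), by positivity, X₀, fun X hX => ?_⟩
  obtain ⟨e1, e2⟩ := hX₀ X hX
  have hX0 : 0 < X := by linarith
  obtain ⟨Z, hZ⟩ : ∃ Z : ℝ, Z = X ^ ((e : ℝ)⁻¹) := ⟨_, rfl⟩
  have hZ0 : 0 < Z := by rw [hZ]; exact Real.rpow_pos_of_pos hX0 _
  have hZe : Z ^ e = X := by rw [hZ]; exact Real.rpow_inv_natCast_pow hX0.le he0
  rw [← hZ] at e1
  obtain ⟨Y, hY⟩ : ∃ Y : ℝ, Y = Z / E := ⟨_, rfl⟩
  have hY4 : 4 * ((t₀ : ℝ) + 1) ≤ Y := by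
    rw [hY, le_div_iff₀ hE0]; exact e1
  have ht0 : (0 : ℝ) ≤ t₀ := Nat.cast_nonneg _
  have hY0 : 0 ≤ Y := by linarith
  obtain ⟨R, hR⟩ : ∃ R : ℕ, R = ⌊Y⌋₊ := ⟨_, rfl⟩
  have hR1 : 1 ≤ R := by
    rw [hR]; exact Nat.le_floor (by push_cast; linarith)
  have hR1' : (1 : ℝ) ≤ R := by exact_mod_cast hR1
  have hR2 : (R : ℝ) ≤ Y := by rw [hR]; exact Nat.floor_le hY0
  have hR3 : Y < R + 1 := by rw [hR]; exact Nat.lt_floor_add_one _
  have hT1 : 1 ≤ B * (R : ℝ) ^ 2 := by nlinarith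
  have hbound : ((m + 1).factorial : ℝ) ^ 2 * (B * R ^ 2 + 1) ^ ((m + 1) * m) ≤ X := by
    have h1 : (B * (R : ℝ) ^ 2 + 1) ^ ((m + 1) * m) ≤ (2 * B * Y ^ 2) ^ ((m + 1) * m) := by
      apply pow_le_pow_left₀ (by positivity)
      have h2 : (R : ℝ) ^ 2 ≤ Y ^ 2 := pow_le_pow_left₀ (by linarith) hR2 2
      nlinarith
    calc ((m + 1).factorial : ℝ) ^ 2 * (B * R ^ 2 + 1) ^ ((m + 1) * m)
        ≤ ((m + 1).factorial : ℝ) ^ 2 * (2 * B * Y ^ 2) ^ ((m + 1) * m) :=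
          mul_le_mul_of_nonneg_left h1 (by positivity)
      _ = D * Y ^ e := by
          rw [hD, he, mul_pow (2 * B), ← pow_mul]
          ring
      _ = X := by
          rw [hY, div_pow, hEe, hZe]
          field_simp
  obtain ⟨q, F, hF, hN, h1, h2, h3⟩ := h R hR1 X hbound
  refine ⟨q, F, hF, hN, ?_, h2, h3⟩
  have hlogX : 0 < Real.log X := Real.log_pos (by linarith)
  have h4 : Real.log (2 * (B * R ^ 2) + 1) ≤ Real.log X := by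
    apply Real.log_le_log (by positivity)
    refine le_trans ?_ hbound
    have h5 : (2 : ℝ) ≤ ((m + 1).factorial : ℝ) := by
      have h6 : 2 ≤ m + 1 := by omega
      have h7 : 2 ≤ (m + 1).factorial := h6.trans (Nat.self_le_factorial _)
      exact_mod_cast h7
    have h8 : (2 : ℝ) ≤ ((m + 1).factorial : ℝ) ^ 2 := by nlinarith
    have h9 : (B * (R : ℝ) ^ 2 + 1) ≤ (B * (R : ℝ) ^ 2 + 1) ^ ((m + 1) * m) :=
      le_self_pow₀ (by linarith) (by positivity)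
    nlinarith
  have h5 : 0 ≤ Real.log (2 * (B * R ^ 2) + 1) := Real.log_nonneg (by linarith)
  have h6 : (R : ℝ) - t₀ ≤ q * (C * Real.log X ^ (m ^ 2)) := by
    refine h1.trans ?_
    apply mul_le_mul_of_nonneg_left _ (Nat.cast_nonneg _)
    apply mul_le_mul_of_nonneg_left _ hC.le
    exact pow_le_pow_left₀ h5 h4 _
  have h7 : Y / 4 ≤ (R : ℝ) - t₀ := by linarith
  have h8 : Z / E / 4 ≤ q * (C * Real.log X ^ (m ^ 2)) := by
    rw [← hY]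
    exact h7.trans h6
  have h9 : X ^ ((1 : ℝ) / (2 * ((m + 1) * m) : ℕ)) = Z := by
    rw [hZ, he, one_div]
  rw [h9, div_le_iff₀ (by positivity), div_mul_eq_mul_div, one_mul, div_le_iff₀ (by positivity)]
  rw [div_div, div_le_iff₀ (by positivity)] at h8
  calc Z ≤ q * (C * Real.log X ^ (m ^ 2)) * (E * 4) := h8
    _ = _ := by ring

end Pool.Agent.Q22.LE
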